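import Pool.Agent.V7H39.HS.Fib

/-!
# The standard conjecture of Hodge type under blow-ups and cellular fibrations

Everything is modulo numerical equivalence. `HodgeNumBelow ops X D p` is the standard conjecture of
Hodge type for the variety `X` and the divisor `D` in the codimensions `j < p`, `2 j ≤ dim X`: if the
cycle `z` of codimension `j` is primitive and not numerically trivial, the sign of
`z · z · D ^ (n - 2 j)` is `(-1) ^ j`. It is the whole conjecture for `2 p > dim X`. For ample
divisors the codimensions `0` and `1` are the Hodge index theorem, so `p = 3` is the first open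
case.

**1. Blow-ups.** Let `f : Y ⟶ X` be the blow-up along the smooth subvariety `Z` with exceptional
divisor `E`, and `D` a divisor on `X`. If the conjecture holds for `(X, D)` in the codimensions
`< p` and for `(Z, D|Z)` in the codimensions `< p - 1`, then it holds for `(Y, m f^* D - E)` in the
codimensions `< p`, for all large `m`. Conversely, if it holds for `(Y, m f^* D - E)` and arbitrarily
large `m`, and the Lefschetz operators of `(X, D)` and `(Z, D|Z)` are injective modulo numerical
equivalence in these codimensions, it holds for `(X, D)` and `(Z, D|Z)`.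

**2. Cellular fibrations** (projective bundles, flag bundles, toric bundles, and so on), polarized
by `m f^* D + ξ`: the conjecture for `(X, D)` implies the one for `(Y, m f^* D + ξ)` and large `m`,
and conversely.

**3. Towers.** The conjecture holds in the codimensions `< p`, for some ample divisor, for all towers
of blow-ups and cellular fibrations over varieties of dimension at most `3` or varieties for
which it is known; the centres of the blow-ups have dimension at most `3`, or are arbitrary
if `p ≤ 3`. So in codimension `2` the conjecture is invariant under all blow-ups.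

Method: for large `m` the Lefschetz forms of `(Y, m f^* D - E)` are, after a scaling by half-integral
powers of `m`, close to the orthogonal sum of those of `X` and, with the opposite sign, those of a ring
of polynomials `A(Z)[h] / (h ^ (r - 1))` with the class `h + D`. The ring of polynomials has the
Hodge-Riemann property if `A(Z)` has it (proved by induction, using the map from the product
with a projective line given by `h ↦ h + h'`). A form which is positive on the kernel of a matrix
stays so under small perturbations of the form and the matrix, with bounds proved over the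
rational numbers; for the converse one uses that kernels of surjective matrices vary continuously.
-/

set_option autoImplicit false

open CategoryTheory AlgebraicGeometry

universe u v

namespace Pool.Agent.Results.MP_ffcd14_ag.BlowupsFibrationsH39

open Pool.Agent.H914 Pool.Agent.H914.VarClass Pool.Agent.H914.VarClass.Obj
  Pool.Agent.V7H39.HS

/-- **The standard conjecture of Hodge type for blow-ups, cellular fibrations and towers.** -/
theorem result {k : Type u} [Field k] {𝒱 : VarClass k} {ops : CycleOps 𝒱}
    (W : WeilCohomology.{u, v} ops) :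
    (∀ (X Z Y E : 𝒱.Obj) (f : Y ⟶ X) (s : Z ⟶ X) (i : E ⟶ Y) (g : E ⟶ Z) (h : E.Cycles) (r : ℕ),
      IsBlowup W f s i g h r → ∀ D : X.Cycles, X.IsCyc 1 D → ∀ p : ℕ,
      (HodgeNumBelow ops X D p → HodgeNumBelow ops Z (ops.pull s D) (p - 1) →
        ∃ m₀, ∀ m ≥ m₀, HodgeNumBelow ops Y (blowupDivisor ops f i D m) p) ∧
      (LefNumBelow ops X D p → LefNumBelow ops Z (ops.pull s D) (p - 1) →
        (∀ m₀, ∃ m ≥ m₀, HodgeNumBelow ops Y (blowupDivisor ops f i D m) p) →
        HodgeNumBelow ops X D p ∧ HodgeNumBelow ops Z (ops.pull s D) (p - 1))) ∧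
    (∀ (X Y : 𝒱.Obj) (f : Y ⟶ X) (ξ : Y.Cycles) (ι : Type) [Fintype ι] (d : ι → ℕ)
      (π : ι → Y.Cycles) (F : ℕ),
      IsCellular W f ξ d π F → ∀ D : X.Cycles, X.IsCyc 1 D → ∀ p : ℕ,
      (HodgeNumBelow ops X D p →
        ∃ m₀, ∀ m ≥ m₀, HodgeNumBelow ops Y (fibrationDivisor ops f ξ D m) p) ∧
      (LefNumBelow ops X D p → (∃ i, d i = 0) →
        (∀ m₀, ∃ m ≥ m₀, HodgeNumBelow ops Y (fibrationDivisor ops f ξ D m) p) →
        HodgeNumBelow ops X D p)) ∧
    (∀ 𝒜 : ∀ X : 𝒱.Obj, X.Cycles → Prop, IsAmpleSet ops 𝒜 → ∀ (p : ℕ) (X : 𝒱.Obj),
      IsTower W 𝒜 p X → ∃ D, 𝒜 X D ∧ HodgeNumBelow ops X D p) := by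
  refine ⟨?_, ?_, ?_⟩
  · intro X Z Y E f s i g h r B D hD p
    exact ⟨fun hX hZ => B.hodge_large hD hX hZ, fun hX hZ hY => B.hodge_conv hD hX hZ hY⟩
  · intro X Y f ξ ι _ d π F B D hD p
    exact ⟨fun hX => B.hodge_large hD hX, fun hX ⟨i₀, hi₀⟩ hY => B.hodge_conv hD i₀ hi₀ hX hY⟩
  · intro 𝒜 hA p X hX
    exact hX.hodge hA

end Pool.Agent.Results.MP_ffcd14_ag.BlowupsFibrationsH39
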