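import Pool.Agent.V7H1.HS.Hilb2

/-!
# The standard conjecture of Hodge type for Hilbert schemes of points on K3 surfaces over finite fields

**The surfaces.** Let `X i` be K3 surfaces over an algebraic closure of the field with `p` elements, of
finite heights `h i` and with Picard numbers `22 - b i` (`IsK3Variety`, as in the starting result
`DifferentHeights`: over a finite field with `q` elements the transcendental part of `H²(X i)`, of
dimension `b i`, is the sum of eigenspaces of Frobenius of dimension `ε` for the conjugates of
`q α i`, all powers of `α i` generate a CM field `E i`, the `p`-adic embeddings of `E i` with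
`|α i| > 1` belong to one place, of local degree `m i = h i / ε`, and there `|α i| = q ^ (1 / h i)`;
the Tate conjecture is known for `X i × X i`: Charles, Madapusi Pera, Kim and Madapusi Pera; Ito, Ito
and Koshikawa). Let `S 0, …, S (s - 1)` be polarized varieties, each of them one of the K3 surfaces
`X i`, with any divisor with the hard Lefschetz theorem, or (`τ j = none`) a variety whose cohomology
is spanned by the classes of algebraic cycles, for instance a supersingular K3 surface, an Enriques
surface, a rational or a unirational surface. Known is, and assumed is, the standard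
conjecture of Hodge type for the products of two factors which are the same K3 surface, with any two
of the divisors (Ito, Ito and Koshikawa), and for the varieties without index (for surfaces it is the
Hodge index theorem).

**The numbers.** Let `N i` be natural numbers such that `|a i| ≤ N i`, `∑ a i / h i = 0` for integers
`a i` only if all `a i` are zero, and `N i ≤ 2`, or `N i = 3` and `(d i, m i) ∉ exceptionalPairs`, or
`m i` is odd and `(d i, m i) ∉ exceptionalOddPairs`, where `[E i : ℚ] = 2 d i`; or one of the further
cases of `Admissible`. For one K3 surface of odd height the number `N` is arbitrary, except possibly if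
`(ρ, h)` is one of `(10, 3), (4, 3), (2, 3), (2, 5)`.

**The varieties `Y`.** Let `Y` have a semismall decomposition (`IsSemismall`, for the pull-back `A` of
an ample divisor by a semismall morphism) all of whose pieces are products of the polarized varieties
`S j`, with at most `N i` factors equal to `X i`. For example:

* `Y = S^[n]`, the **Hilbert scheme of `n` points** on a surface `S`, where `n ≤ N i` if `S = X i`
  (Göttsche and Soergel; Nakajima; de Cataldo and Migliorini). The semismall morphism is
  `S^[n] → S^(n)`, the pieces are indexed by the partitions `ν` of `n`, the piece is `S ^ l`, `l` the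
  number of parts, with the divisor `∑ ν_i pr_i^* D` (so the polarized varieties `S j` are `S` with the
  multiples of one divisor `D`), `c = n - l`, `m / M = 1 / (∏ ν_i |Aut ν|)`, the correspondence is the
  closure of the set of `(x_1, …, x_l, ξ)` where `ξ` has the support `∑ ν_i x_i`, and the intersection
  number of the fibre with itself is `(-1) ^ (n - l) ∏ ν_i`. These are hyper-Kähler varieties of
  dimension `2 n`, if `S` is a K3 surface.
* products of such Hilbert schemes for various surfaces.

**Theorem.** Homological and numerical equivalence coincide on `Y` (`HomNum`), and for each divisor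
`E` on `Y` there is `B` such that the standard conjecture of Hodge type, in all codimensions
(`HodgeFor`), holds for `Y` and the divisors `m A + n E`, for all integers `m`, `n` with `m > B |n|`;
in particular for `A`. For the Hilbert scheme these are ample divisors, if `-E` is the exceptional
divisor, `n > 0` and `m / n` is large.

So the standard conjecture of Hodge type holds for **all Hilbert schemes of points on all K3 surfaces
of odd height over finite fields** (with the four possible exceptions), for the Hilbert schemes of
two points on **all** K3 surfaces over finite fields, for all Hilbert schemes of points on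
supersingular K3 surfaces and on all surfaces with algebraic cohomology, and for all products of
the latter with each other and with one of the former.

The proof: the starting result `DifferentHeights` gives the conjectures for the products of the
surfaces; they are transferred to `Y` and `A` by the decomposition (the signs `(-1) ^ c` of the
fibres are what is needed), and to `m A + n E` by the openness theorem (`Pool.Agent.V7H1.HS`).
-/

set_option autoImplicit false

open CategoryTheory AlgebraicGeometry NumberField

universe u v

namespace Pool.Agent.Results.MP_ffcd14_ag.HilbertSchemesK3H1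

open Pool.Agent.H914 Pool.Agent.W534 Pool.Agent.TH121.KT Pool.Agent.W517.K3 Pool.Agent.W552
  Pool.Agent.H281R3.HT Pool.Agent.N179.TL Pool.Agent.N179.HT Pool.Agent.V7H1.HS VarClass Obj
  WeilCohomology

/-- **The standard conjecture of Hodge type, and homological against numerical equivalence, for
varieties with a semismall decomposition into products of K3 surfaces and of varieties with algebraic
cohomology, for instance Hilbert schemes of points.** -/
theorem result {k : Type u} [Field k] {𝒱 : VarClass k} {ops : CycleOps 𝒱}
    (W : WeilCohomology.{u, v} ops) [IsAlgClosed W.K] (p : ℕ) [Fact p.Prime]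
    (Φ : FrobSystem W p) {r : ℕ} (X : Fin r → 𝒱.Obj) (e : Fin r → ℕ)
    (F : Fin r → Type) [∀ i, Field (F i)] [∀ i, NumberField (F i)] [∀ i, IsCMField (F i)]
    (α : ∀ i, F i) (h b : Fin r → ℕ)
    (hX : ∀ i, IsK3Variety Φ (X i) (e i) (α i) (h i) (b i)) (N : Fin r → ℕ)
    (hN : Admissible {0} h b (fun i => Module.finrank ℚ (F i) / 2)
      (fun i => localDegree p (α i)) N)
    {s : ℕ} (S : Fin s → Polarized 𝒱) (τ : Fin s → Option (Fin r))
    (hS : ∀ j i, τ j = some i → (S j).X = X i)
    (hS' : ∀ j, τ j = none → algSpan W (S j).X = ⊤)
    (hD : ∀ j, (S j).X.IsCyc 1 (S j).D)
    (hdeg : ∀ j, 0 < (S j).X.V.degCycle (divPow ops (S j).D (S j).X.dim (S j).X.V.fundCycle))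
    (hHL : ∀ j, HardLefschetz W (S j).X (S j).D)
    (h1 : ∀ j, τ j = none → HodgeFor W (S j).X (S j).D)
    (h2 : ∀ j j' i, τ j = some i → τ j' = some i →
      HodgeFor W ((S j).prod ops (S j')).X ((S j).prod ops (S j')).D)
    {ι : Type} [Fintype ι] (n : ι → ℕ) (idx : ∀ a, Fin (n a + 1) → Fin s)
    (hidx : ∀ a i, (Finset.univ.filter fun t => τ (idx a t) = some i).card ≤ N i)
    (Y : 𝒱.Obj) (A : Y.Cycles) (hA : Y.IsCyc 1 A) (c m : ι → ℕ) (M : ℕ)
    (γ : ∀ a, ((nest ops (n a) fun t => S (idx a t)).X.prod Y).Cycles)
    (hY : IsSemismall W A (fun a => (nest ops (n a) fun t => S (idx a t)).D) c m M γ) :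
    HomNum W Y ∧ ∀ E : Y.Cycles, Y.IsCyc 1 E → ∃ B : ℕ, ∀ m n : ℤ, B * |n| < m →
      HodgeFor W Y (m • A + n • E) := by
  have hS2 : ∀ j, IsFactor W X (τ j) (S j).X := by
    intro j
    rcases hj : τ j with _ | i
    · exact hS' j hj
    · exact hS j i hj
  have key : ∀ a, HomEqNum W (nest ops (n a) fun t => S (idx a t)).X ∧
      HodgeType W (nest ops (n a) fun t => S (idx a t)).X
        (nest ops (n a) fun t => S (idx a t)).D := by
    intro a
    have hdata : Data Φ X e α h b {0} (fun t => S (idx a t)) (fun t => τ (idx a t)) :=
      ⟨hX, Set.mem_singleton _, admissible_mono (hidx a) hN, fun t => hS2 _, fun t => hD _,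
        fun t => hdeg _, fun t => hHL _, fun t ht => h1 _ ht, fun t t' i ht ht' => h2 _ _ i ht ht'⟩
    exact ⟨hdata.final.1, hdata.final.2.1⟩
  exact of_pieces' hA hY (fun a => (key a).1) fun a => (key a).2

end Pool.Agent.Results.MP_ffcd14_ag.HilbertSchemesK3H1
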