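import Mathlib
import Pool.Agent.V7H41.HD.Fin

/-!
# The standard conjecture of Hodge type for the products of any variety with powers of 100% of the
# hyperelliptic curves over any finitely generated domain

Let `R` be an integrally closed domain, finitely generated over `ℤ`, not a field, with `2 ≠ 0` (for
instance `R = F_q[t]` or `R = F_q[t_1, ..., t_r]`, `q` odd, or the ring of integers of a number
field), with fraction field `k`, and let `n i ≥ 7`, `i ∈ ι`, be odd numbers. We consider the tuples `f` of
monic polynomials `f i` of the degrees `n i` with coefficients in `R` and the hyperelliptic curves
`y ^ 2 = f i (x)`, over the algebraic closure `F` of an extension `L` of `k`.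

Let `W` be a Weil cohomology theory on a class of smooth proper varieties over a field `κ`, with
coefficients in a field which contains the 2-adic numbers (the example: `κ = F`, 2-adic cohomology),
and `G` a class of varieties, closed under products, with an action of the Galois group of `F / L`
on the cohomology which has the formal properties of a Galois action (the example: varieties over
`L`). The varieties `X i` in `G` are the hyperelliptic curves or, more generally, varieties of odd
dimension whose transcendental cohomology is in the middle degree and, up to a Tate twist, isomorphic
to the rational 2-adic Tate module of the Jacobian of `y ^ 2 = f i (x)` (`System`; the Jacobian is the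
class group of the ring `F[x, y]`, `y ^ 2 = f i (x)`). The variety `Z` in `G` is arbitrary, of any
dimension. Let `E` be a divisor on `Z` with the hard Lefschetz theorem (a theorem of Deligne for
ample divisors); nothing else is assumed on `Z`: no conjecture of Lefschetz type, no equality of
homological and numerical equivalence, no Tate conjecture.

`Reduces` is the following property of `f` and `Z`: for all systems of varieties `X i` as above, with
divisors `D i`, and all products `T` of `Z` and of arbitrary powers of the `X i`, with the sum of the
pull-backs of the divisors,
* the standard conjecture of Hodge type holds for `T` if and only if it holds for `Z` and `E`;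
* homological and numerical equivalence coincide on `T` if and only if they coincide on `Z`;
* the conjecture A (of Lefschetz type) holds for `T` if and only if it holds for `Z` and `E`.
In particular, if the conjectures A, D and of Hodge type hold for `Z` (for instance if `Z` is a point,
a curve or a surface) then they hold for all these products `T`.

**Theorem.** (1) (Large Galois groups.) `Reduces` is true if the Galois groups of the `f i` contain the
alternating groups, no splitting field of an `f i` is contained in the one of an `f j`, `j ≠ i`, and for a
stable lattice in the cohomology of `Z` of rank `d` the splitting fields of the `f i` are not contained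
in the field generated by the action on the lattice modulo two, or `(n i)! > 2 ^ (d ^ 2 + 1)`.

(2) (100% for each `Z`.) For each extension `L` of `k` whose separable part is finite, and each `Z` over
`L` with a stable lattice, `Reduces` is true for 100% of the tuples `f`: the proportion tends to one in
all sequences of finite sets of tuples which are equidistributed modulo all ideals of `R` of finite
index, for instance the sets of the tuples of polynomials in `F_q[t]` of degrees smaller than `d`, `d → ∞`.

The other parts are uniform in `L` and `Z`. `U` is a finite subset of `kˣ`, and `f` is called good for `U` if
`Reduces` is true for ALL `L` which are `Allowed` and ALL `Z` over `L` which are `Tame`: the separable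
elements of `L` have solvable Galois groups over `k`, or they lie in a normal extension of `k` over
which none of the `f i` splits, or in which only the elements of `U`, up to squares, become squares;
and `Z` has a stable lattice of rank `d` over `ℤ_2` such that `(n i)! > 2 ^ (d ^ 2 + 1)` for all `i`, or
the image of the Galois group modulo two is solvable, or each square root of an element of `kˣ` in the
field defined by the action on the lattice modulo two is a square root of an element of `U`, up to
factors in `k`.

(3) (Congruences.) For all `U` and `η > 0` there is an ideal `M` of finite index such that for a
proportion of at least `1 - η` of the residue classes modulo `M` of tuples, ALL tuples in the class are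
good for `U`.

(4) (One exceptional set.) For equidistributed sets of tuples there are finite sets `V 0`, `V 1`, ... of
elements of `kˣ` such that each element of `kˣ` is in `V t` for all large `t`, and the proportion of the
tuples which are good for `V t` tends to one.

The proof of (1): the images of the Galois group on the Tate modules are so large that all algebraic
classes on the product of a power of `X i` and a variety are sums of products of algebraic classes
(start library `Pool.Agent.N171`); with the theorem on the conjecture of Hodge type for such products
(`Pool.Agent.TH132.A`) the hypotheses on `Z` of the starting results (`MP_361a6f_ag.LargeGaloisGroups`: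
the conjectures of Lefschetz and of Hodge type for `Z`) are reduced to the hard Lefschetz theorem. The
other parts use the large sieve for Galois groups over finitely generated rings
(`Pool.Agent.N197.AP.L_LIM`) and a transfer of lattices.
-/

set_option autoImplicit false

universe u

namespace Pool.Agent.Results.MP_ffcd14_ag.HyperellipticDensityH41

open Polynomial Filter Pool.Agent.V7H41.HD
open Pool.Agent.H914 (VarClass CycleOps WeilCohomology)
open Pool.Agent.N171.Bkp (Branch Large)

/-- **The standard conjecture of Hodge type for the products of any variety with powers of 100% of the
hyperelliptic curves over any finitely generated domain.** -/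
theorem result :
    (∀ (L F : Type) [Field L] [Field F] [Algebra L F] [IsAlgClosure L F] (κ : Type u) [Field κ]
      (𝒱 : VarClass κ) (ops : CycleOps 𝒱) (W : WeilCohomology.{u, 0} ops) [Algebra ℚ_[2] W.K]
      (ι : Type) [Finite ι] (f : ι → L[X]), (∀ i, Branch (f i)) → Large F f →
      ∀ Z : GV W (F ≃ₐ[L] F), Free W.K Z.act f → Reduces f Z) ∧
    ∀ (R k : Type) [CommRing R] [IsDomain R] [IsIntegrallyClosed R] [Algebra.FiniteType ℤ R]
      [Field k] [Algebra R k] [IsFractionRing R k] (ι : Type) [Fintype ι] [Nonempty ι] (n : ι → ℕ),
      ¬ IsField R → (2 : R) ≠ 0 → (∀ i, 7 ≤ n i) → (∀ i, Odd (n i)) →
      (∀ B : ℕ → Finset ((Σ i, Fin (n i)) → R), Equidistributed B →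
        ∀ (L F : Type) [Field L] [Field F] [Algebra k L] [Algebra L F] [Algebra k F]
          [IsScalarTower k L F] [IsAlgClosure L F] [FiniteDimensional k (separableClosure k L)]
          (κ : Type u) [Field κ] (𝒱 : VarClass κ) (ops : CycleOps 𝒱)
          (W : WeilCohomology.{u, 0} ops) [Algebra ℚ_[2] W.K] (Z : GV W (F ≃ₐ[L] F)),
          HasLattice W.K Z.act →
          AlmostAll B fun _ y => Reduces (fun i => (poly k y i).map (algebraMap k L)) Z) ∧
      (∀ (U : Finset kˣ) (η : ℝ), 0 < η → ∃ M : Ideal R, Finite (R ⧸ M) ∧
        (1 - η) * (Nat.card ((Σ i, Fin (n i)) → R ⧸ M) : ℝ) ≤
          (Nat.card {z : (Σ i, Fin (n i)) → R ⧸ M //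
            ∀ y : (Σ i, Fin (n i)) → R, InClass y z → Good.{u} n U (poly k y)} : ℝ)) ∧
      ∀ B : ℕ → Finset ((Σ i, Fin (n i)) → R), Equidistributed B →
        ∃ V : ℕ → Finset kˣ, (∀ u : kˣ, ∀ᶠ t in atTop, u ∈ V t) ∧
          AlmostAll B fun t y => Good.{u} n (V t) (poly k y) :=
  ⟨fun L F _ _ _ _ κ _ 𝒱 ops W _ ι _ f hb hs Z hZ => reduces_of_free f hb hs Z hZ,
    fun R k _ _ _ _ _ _ _ ι _ _ n hR h2 h7 ho =>
      ⟨fun B hB => each.{u} R k n hR h2 h7 ho B hB, classes.{u} R k n hR h2 h7 ho,
        uniform.{u} R k n hR h2 h7 ho⟩⟩

end Pool.Agent.Results.MP_ffcd14_ag.HyperellipticDensityH41
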