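import Pool.Agent.V7H82.HT.Prf

/-!
# The standard conjecture of Hodge type for abelian varieties over finite fields whose CM fields have
# primitive real subfields

The model is that of the starting result `QuadraticRelations` (all properties assumed of the system
of cycle classes are theorems for the classes of algebraic cycles, see there): by Honda and Tate an
abelian variety over an algebraic closure of the field with `p` elements is, up to isogeny, the
reduction `Z` of a product of abelian varieties with complex multiplication by CM fields `E i`, with
Frobenius endomorphisms `π i ∈ E i`.

A CM field `E` of degree `2 n` with real subfield `E⁺` is good (`IsGoodField`) if

* `n` is one or a prime number, or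
* any two embeddings of `E⁺` can be moved to any two others by an automorphism of `ℂ` (in some
  order), and `n` is odd, or `n - 1` is a prime number, or the same is true for any three embeddings
  (so `n` is arbitrary if the Galois group of the closure of `E⁺` is the symmetric or the
  alternating group of degree `n`), or
* `E⁺` has no subfields besides `ℚ` and `E⁺`, and the degree of the Galois closure of `E` is more than
  twice the degree of the Galois closure of `E⁺`.

The factors are independent (`AreIndependent`) if for any two embeddings of `E i` and `E k`, `i ≠ k`,
some automorphism of `ℂ` fixes one of them and conjugates the other. (This is no condition if there
is one factor.) The factor `i` is of Weil type (`IsWeilType`) if there is an imaginary quadratic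
subfield `K` of `E i` such that the product of the eigenvalues `φ (π i)`, for the embeddings `φ` of
`E i` with the same restriction to `K`, is `q ^ (n / 2)` up to a root of unity; then the powers of the
factor have exotic Tate classes, which are not known to be algebraic and which do not come from
Hodge classes of liftings in general.

**Theorem.** Suppose that the fields `E i` are good, that the factors are independent and that at
most one of the factors of dimension greater than five is of Weil type. Then the standard conjecture
of Hodge type holds, modulo numerical equivalence, for all products `Y` of a supersingular abelian
variety and of powers of the factors of `Z`, for all codimensions and for all polarizations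
compatible with the complex multiplications of the lifting.

In particular it holds for all powers of an abelian variety with one good CM field. The starting
result covers one field of degree `2 n` with `n` a prime number. Nothing is assumed on the slopes.

The proof: on the embeddings of a good field the relations between the translates of an odd function
`W` are determined by group theory (cyclotomic polynomials if `n` is a prime number, Seidel switching
and the linear algebra of doubly transitive groups otherwise): either `W` vanishes, or it is up to a
factor a sign function at all translates (then the relations are generated by relations between two
eigenvalues), or there are no relations, or the relations are the multiples of a sign function, which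
belongs to an imaginary quadratic field. So all relations between the Frobenius eigenvalues are
generated by elementary ones and by one relation which is defined over an imaginary quadratic field,
and the theorem of the library `Pool.Agent.N202.QR` applies.
-/

set_option autoImplicit false

namespace Pool.Agent.Results.MP_ffcd14_ag.TwoTransitiveH82

open NumberField Module
open Pool.Agent.W495.TA Pool.Agent.TH117.PO Pool.Agent.TH117.BL Pool.Agent.N202.QR
open Pool.Agent.V7H82.HS

variable {p : ℕ} [Fact p.Prime] {ν : PadicAlgCl p ≃+* ℂ}

/-- **The standard conjecture of Hodge type** for the products of powers of independent factors with
good CM fields and of a supersingular abelian variety, if at most one of the factors of dimension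
greater than five is of Weil type. -/
theorem result {Ω : Nat.Primes → Type}
    [∀ l, Field (Ω l)] [∀ l, CharZero (Ω l)] [∀ l : Nat.Primes, Algebra ℚ_[(l : ℕ)] (Ω l)]
    [∀ l, IsAlgClosed (Ω l)] {C : (Y : RedAV p ν) → (κ : Type) → FCl Ω Y κ → Prop}
    (hC : IsCompatible Ω C) (l : Nat.Primes) (hR : IsRosatiPositive (Ω l) (atPrime C l))
    (hT : AreTate (Ω l) (atPrime C l)) (Z Y : RedAV p ν) (hYZ : IsProductOfPowers Z Y)
    (hgood : ∀ i : Z.X.I, IsGoodField (Z.X.factor i).E) (hind : AreIndependent Z)
    (hweil : ∀ i k : Z.X.I, i ≠ k → 10 < finrank ℚ (Z.X.factor i).E →
      10 < finrank ℚ (Z.X.factor k).E → ¬ (IsWeilType Z i ∧ IsWeilType Z k)) :
    HodgeType (Ω l) (atPrime C l) Y :=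
  main hC l hR hT Z Y hYZ hgood hind hweil

end Pool.Agent.Results.MP_ffcd14_ag.TwoTransitiveH82
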